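import Pool.Agent.Lib_helper97.AQ.Schauder
import Pool.Agent.Lib_helper44.AQ.H2

/-! Module I2: the Schauder estimate in `C^{2,α}`. -/

namespace AQ

open AP Set Filter Topology

theorem schauder2 {α lam Lam : ℝ} (hα0 : 0 < α) (hα1 : α < 1) (hl : 0 < lam) : ∃ C, 0 < C ∧
    ∀ (a11 a12 a22 b1 b2 u : ℝ × ℝ → ℝ) (F : ℝ), ContDiff ℝ 3 u →
      (∀ x : ℝ × ℝ, x.1 ^ 2 + x.2 ^ 2 = 1 → u x = 0) →
      N0 α Lam a11 → N0 α Lam a12 → N0 α Lam a22 → N0 α Lam b1 → N0 α Lam b2 →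
      Ell lam a11 a12 a22 → N0 α F (Lop a11 a12 a22 b1 b2 u) → N2 α (C * F) u :=
  schauder2_of (fun _ _ _ _ _ _ _ _ h _ _ _ ha hdet heq =>
    Pool.Agent.Lib44.BU.bl_lin h ha hdet heq) hα0 hα1 hl

end AQ
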