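import Pool.Agent.Lib_helper42.AQ.Norms
import Pool.Agent.Lib_helper42.AP.Taylor

/-! Interpolation on the unit disc: a function with bounded `C^{2,α}` norm and small supremum has
small first and second derivatives. -/

namespace AQ

open AP Set Filter Topology

/-- quadratic form of the second derivatives -/
noncomputable def QF (f : ℝ × ℝ → ℝ) (e x : ℝ × ℝ) : ℝ :=
  e.1 ^ 2 * D1 (D1 f) x + 2 * (e.1 * e.2 * D1 (D2 f) x) + e.2 ^ 2 * D2 (D2 f) x

section line

variable {f : ℝ × ℝ → ℝ} (h : ContDiff ℝ 2 f) (x e : ℝ × ℝ)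
include h

lemma line_deriv1 (t : ℝ) : HasDerivAt (fun s : ℝ => f (x + s • e))
    (e.1 * D1 f (x + t • e) + e.2 * D2 f (x + t • e)) t :=
  hasDerivAt_line (h.differentiable (by norm_num) _)

lemma line_deriv2 (t : ℝ) : HasDerivAt
    (fun s : ℝ => e.1 * D1 f (x + s • e) + e.2 * D2 f (x + s • e)) (QF f e (x + t • e)) t := by
  have d1 : Differentiable ℝ (D1 f) :=
    (cd_D1 (n := 1) (by simpa using h)).differentiable (by norm_num)
  have d2 : Differentiable ℝ (D2 f) :=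
    (cd_D2 (n := 1) (by simpa using h)).differentiable (by norm_num)
  have := ((hasDerivAt_line (f := D1 f) (x := x) (e := e) (t := t) (d1 _)).const_mul e.1).add
    ((hasDerivAt_line (f := D2 f) (x := x) (e := e) (t := t) (d2 _)).const_mul e.2)
  refine this.congr_deriv ?_
  unfold QF
  rw [← D12_comm h.contDiffAt]
  ring

end line

lemma norm_le_one_of_sq {e : ℝ × ℝ} (he : e.1 ^ 2 + e.2 ^ 2 ≤ 1) : ‖e‖ ≤ 1 := by
  rw [Prod.norm_def, Real.norm_eq_abs, Real.norm_eq_abs]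
  exact max_le (disc_abs1 he) (disc_abs2 he)

lemma QF_hol {α : ℝ} {f : ℝ × ℝ → ℝ} {e : ℝ × ℝ} (he : e.1 ^ 2 + e.2 ^ 2 ≤ 1)
    (h11 : Hol α 1 (D1 (D1 f))) (h12 : Hol α 1 (D1 (D2 f))) (h22 : Hol α 1 (D2 (D2 f))) :
    Hol α 2 (QF f e) := by
  intro x hx y hy
  have e1 := h11 x hx y hy
  have e2 := h12 x hx y hy
  have e3 := h22 x hx y hy
  have hd : 0 ≤ dist x y ^ α := Real.rpow_nonneg dist_nonneg _
  rw [one_mul] at e1 e2 e3
  have e4 : QF f e x - QF f e y = e.1 ^ 2 * (D1 (D1 f) x - D1 (D1 f) y)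
      + 2 * (e.1 * e.2 * (D1 (D2 f) x - D1 (D2 f) y)) + e.2 ^ 2 * (D2 (D2 f) x - D2 (D2 f) y) := by
    unfold QF; ring
  rw [e4]
  have a1 : |e.1 ^ 2 * (D1 (D1 f) x - D1 (D1 f) y)| ≤ e.1 ^ 2 * dist x y ^ α := by
    rw [abs_mul, abs_of_nonneg (sq_nonneg e.1)]
    exact mul_le_mul_of_nonneg_left e1 (sq_nonneg _)
  have a2 : |2 * (e.1 * e.2 * (D1 (D2 f) x - D1 (D2 f) y))| ≤ 2 * |e.1 * e.2| * dist x y ^ α := by
    rw [abs_mul, abs_mul, abs_two, ← mul_assoc]
    exact mul_le_mul_of_nonneg_left e2 (by positivity)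
  have a3 : |e.2 ^ 2 * (D2 (D2 f) x - D2 (D2 f) y)| ≤ e.2 ^ 2 * dist x y ^ α := by
    rw [abs_mul, abs_of_nonneg (sq_nonneg e.2)]
    exact mul_le_mul_of_nonneg_left e3 (sq_nonneg _)
  have a4 : 2 * |e.1 * e.2| ≤ 1 := by
    rw [abs_mul]
    have := sq_nonneg (|e.1| - |e.2|)
    nlinarith [sq_abs e.1, sq_abs e.2]
  calc _ ≤ e.1 ^ 2 * dist x y ^ α + 2 * |e.1 * e.2| * dist x y ^ α + e.2 ^ 2 * dist x y ^ α :=
        (abs_add_three _ _ _).trans (add_le_add (add_le_add a1 a2) a3)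
    _ = (e.1 ^ 2 + 2 * |e.1 * e.2| + e.2 ^ 2) * dist x y ^ α := by ring
    _ ≤ 2 * dist x y ^ α := mul_le_mul_of_nonneg_right (by linarith) hd

lemma shift_mem {z e : ℝ × ℝ} {r t : ℝ} (hz : z ∈ Disc) (he : e.1 ^ 2 + e.2 ^ 2 ≤ 1)
    (hr1 : r ≤ 1) (ht : |t| ≤ r) : (1 - r) • z + t • e ∈ Disc := by
  have h1 : (1 - r) • z + r • ((t / r) • e) ∈ Disc := by
    apply disc_convex hz _ (by linarith) ((abs_nonneg t).trans ht) (by ring)
    have h2 : |t / r| ≤ 1 := by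
      rw [abs_div, abs_of_nonneg ((abs_nonneg t).trans ht)]
      exact div_le_one_of_le₀ ht ((abs_nonneg t).trans ht)
    have h3 : (t / r) ^ 2 ≤ 1 := by
      rw [← sq_abs]; exact pow_le_one₀ (abs_nonneg _) h2
    show ((t / r) • e).1 ^ 2 + ((t / r) • e).2 ^ 2 ≤ 1
    simp only [Prod.smul_fst, Prod.smul_snd, smul_eq_mul]
    have h4 : 0 ≤ e.1 ^ 2 + e.2 ^ 2 := by positivity
    nlinarith [mul_le_mul h3 he h4 zero_le_one]
  rcases eq_or_ne r 0 with hr | hr
  · subst hr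
    have : t = 0 := by simpa using abs_nonpos_iff.mp ht
    subst this
    simpa using hz
  · rw [smul_smul, mul_div_cancel₀ _ hr] at h1
    exact h1

lemma dist_shift_le {z : ℝ × ℝ} {r : ℝ} (hz : z ∈ Disc) (hr0 : 0 ≤ r) :
    dist z ((1 - r) • z) ≤ r := by
  have e : z - (1 - r) • z = r • z := by rw [sub_smul, one_smul]; abel
  rw [dist_eq_norm, e, norm_smul, Real.norm_eq_abs, abs_of_nonneg hr0]
  have := norm_le_one_of_sq (e := z) hz
  nlinarith

/-- second derivatives -/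
lemma QF_small {α : ℝ} (hα0 : 0 < α) {f : ℝ × ℝ → ℝ} (h : ContDiff ℝ 2 f) {e : ℝ × ℝ}
    (he : e.1 ^ 2 + e.2 ^ 2 ≤ 1) {ε r : ℝ} (hr0 : 0 < r) (hr1 : r ≤ 1) (hb : Bd ε f)
    (h11 : Hol α 1 (D1 (D1 f))) (h12 : Hol α 1 (D1 (D2 f))) (h22 : Hol α 1 (D2 (D2 f))) :
    Bd (4 * ε / r ^ 2 + 4 * r ^ α) (QF f e) := by
  intro z hz
  have hQ := QF_hol he h11 h12 h22
  set z' : ℝ × ℝ := (1 - r) • z with hz'
  have hz'd : z' ∈ Disc := by
    have := shift_mem (t := 0) hz he hr1 (by rw [abs_zero]; exact hr0.le)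
    simpa using this
  have hrα : 0 ≤ r ^ α := Real.rpow_nonneg hr0.le _
  -- comparison along the line
  have hline : ∀ s, |s| ≤ r → |QF f e (z' + s • e) - QF f e z'| ≤ 2 * r ^ α := by
    intro s hs
    have h1 := hQ (z' + s • e) (shift_mem hz he hr1 hs) z' hz'd
    have h2 : dist (z' + s • e) z' ≤ r := by
      rw [dist_eq_norm, add_sub_cancel_left, norm_smul, Real.norm_eq_abs]
      have := norm_le_one_of_sq he
      calc |s| * ‖e‖ ≤ r * 1 := mul_le_mul hs this (norm_nonneg _) hr0.le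
        _ = r := mul_one r
    refine h1.trans ?_
    exact mul_le_mul_of_nonneg_left (Real.rpow_le_rpow dist_nonneg h2 hα0.le) (by norm_num)
  have habs : |r| = r := abs_of_pos hr0
  have habs' : |(-r)| = r := by rw [abs_neg, habs]
  have k1 := taylor2_le (f := fun s : ℝ => f (z' + s • e))
    (f1 := fun s : ℝ => e.1 * D1 f (z' + s • e) + e.2 * D2 f (z' + s • e))
    (f2 := fun s : ℝ => QF f e (z' + s • e)) (t := r) (M := QF f e z' + 2 * r ^ α)
    (fun s _ => line_deriv1 h z' e s) (fun s _ => line_deriv2 h z' e s)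
    (fun s hs => by have := (abs_le.1 (hline s (by rwa [habs] at hs))).2; linarith)
  have k2 := taylor2_ge (f := fun s : ℝ => f (z' + s • e))
    (f1 := fun s : ℝ => e.1 * D1 f (z' + s • e) + e.2 * D2 f (z' + s • e))
    (f2 := fun s : ℝ => QF f e (z' + s • e)) (t := r) (m := QF f e z' - 2 * r ^ α)
    (fun s _ => line_deriv1 h z' e s) (fun s _ => line_deriv2 h z' e s)
    (fun s hs => by have := (abs_le.1 (hline s (by rwa [habs] at hs))).1; linarith)
  have k3 := taylor2_le (f := fun s : ℝ => f (z' + s • e))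
    (f1 := fun s : ℝ => e.1 * D1 f (z' + s • e) + e.2 * D2 f (z' + s • e))
    (f2 := fun s : ℝ => QF f e (z' + s • e)) (t := -r) (M := QF f e z' + 2 * r ^ α)
    (fun s _ => line_deriv1 h z' e s) (fun s _ => line_deriv2 h z' e s)
    (fun s hs => by have := (abs_le.1 (hline s (by rwa [habs'] at hs))).2; linarith)
  have k4 := taylor2_ge (f := fun s : ℝ => f (z' + s • e))
    (f1 := fun s : ℝ => e.1 * D1 f (z' + s • e) + e.2 * D2 f (z' + s • e))
    (f2 := fun s : ℝ => QF f e (z' + s • e)) (t := -r) (m := QF f e z' - 2 * r ^ α)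
    (fun s _ => line_deriv1 h z' e s) (fun s _ => line_deriv2 h z' e s)
    (fun s hs => by have := (abs_le.1 (hline s (by rwa [habs'] at hs))).1; linarith)
  have m0 := abs_le.1 (hb z' hz'd)
  have m1 := abs_le.1 (hb (z' + r • e) (shift_mem hz he hr1 habs.le))
  have m2 := abs_le.1 (hb (z' + (-r) • e) (shift_mem hz he hr1 habs'.le))
  simp only [zero_smul, add_zero] at k1 k2 k3 k4
  have hr2 : 0 < r ^ 2 := by positivity
  have c1 : |QF f e z'| ≤ 4 * ε / r ^ 2 + 2 * r ^ α := by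
    have e0 : (4 * ε / r ^ 2 + 2 * r ^ α) * r ^ 2 = 4 * ε + 2 * r ^ α * r ^ 2 := by
      field_simp
    rw [abs_le]
    constructor
    · have : -(4 * ε / r ^ 2 + 2 * r ^ α) * r ^ 2 ≤ QF f e z' * r ^ 2 := by
        rw [neg_mul, e0]
        nlinarith
      exact le_of_mul_le_mul_right this hr2
    · have : QF f e z' * r ^ 2 ≤ (4 * ε / r ^ 2 + 2 * r ^ α) * r ^ 2 := by
        rw [e0]
        nlinarith
      exact le_of_mul_le_mul_right this hr2
  have c2 : |QF f e z - QF f e z'| ≤ 2 * r ^ α := by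
    refine (hQ z hz z' hz'd).trans ?_
    exact mul_le_mul_of_nonneg_left (Real.rpow_le_rpow dist_nonneg (dist_shift_le hz hr0.le)
      hα0.le) (by norm_num)
  calc |QF f e z| = |(QF f e z - QF f e z') + QF f e z'| := by congr 1; ring
    _ ≤ 2 * r ^ α + (4 * ε / r ^ 2 + 2 * r ^ α) := (abs_add_le _ _).trans (add_le_add c2 c1)
    _ = _ := by ring

/-- first derivatives -/
lemma D_small {f : ℝ × ℝ → ℝ} (h : ContDiff ℝ 2 f) {e : ℝ × ℝ}
    (he : e.1 ^ 2 + e.2 ^ 2 ≤ 1) {ε r : ℝ} (hr0 : 0 < r) (hr1 : r ≤ 1) (hb : Bd ε f)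
    (h11 : Bd 1 (D1 (D1 f))) (h12 : Bd 1 (D1 (D2 f))) (h22 : Bd 1 (D2 (D2 f)))
    {z : ℝ × ℝ} (hz : z ∈ Disc) :
    |e.1 * D1 f ((1 - r) • z) + e.2 * D2 f ((1 - r) • z)| ≤ 2 * ε / r + r := by
  set z' : ℝ × ℝ := (1 - r) • z with hz'
  have hz'd : z' ∈ Disc := by
    have := shift_mem (t := 0) hz he hr1 (by rw [abs_zero]; exact hr0.le)
    simpa using this
  have habs : |r| = r := abs_of_pos hr0
  have hQ : ∀ x ∈ Disc, |QF f e x| ≤ 2 := by
    intro x hx
    have e1 := h11 x hx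
    have e2 := h12 x hx
    have e3 := h22 x hx
    have a1 : |e.1 ^ 2 * D1 (D1 f) x| ≤ e.1 ^ 2 * 1 := by
      rw [abs_mul, abs_of_nonneg (sq_nonneg e.1)]
      exact mul_le_mul_of_nonneg_left e1 (sq_nonneg _)
    have a2 : |2 * (e.1 * e.2 * D1 (D2 f) x)| ≤ 2 * |e.1 * e.2| * 1 := by
      rw [abs_mul, abs_mul, abs_two, ← mul_assoc]
      exact mul_le_mul_of_nonneg_left e2 (by positivity)
    have a3 : |e.2 ^ 2 * D2 (D2 f) x| ≤ e.2 ^ 2 * 1 := by
      rw [abs_mul, abs_of_nonneg (sq_nonneg e.2)]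
      exact mul_le_mul_of_nonneg_left e3 (sq_nonneg _)
    have a4 : 2 * |e.1 * e.2| ≤ 1 := by
      rw [abs_mul]
      have := sq_nonneg (|e.1| - |e.2|)
      nlinarith [sq_abs e.1, sq_abs e.2]
    unfold QF
    calc _ ≤ e.1 ^ 2 * 1 + 2 * |e.1 * e.2| * 1 + e.2 ^ 2 * 1 :=
          (abs_add_three _ _ _).trans (add_le_add (add_le_add a1 a2) a3)
      _ ≤ 2 := by linarith
  have k := taylor2_abs (f := fun s : ℝ => f (z' + s • e))
    (f1 := fun s : ℝ => e.1 * D1 f (z' + s • e) + e.2 * D2 f (z' + s • e))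
    (f2 := fun s : ℝ => QF f e (z' + s • e)) (t := r) (M := 2)
    (fun s _ => line_deriv1 h z' e s) (fun s _ => line_deriv2 h z' e s)
    (fun s hs => hQ _ (shift_mem hz he hr1 (by rwa [habs] at hs)))
  simp only [zero_smul, add_zero] at k
  have m0 := abs_le.1 (hb z' hz'd)
  have m1 := abs_le.1 (hb (z' + r • e) (shift_mem hz he hr1 habs.le))
  have k' := abs_le.1 k
  have e0 : (2 * ε / r + r) * r = 2 * ε + r ^ 2 := by field_simp
  rw [abs_le]
  constructor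
  · have : -(2 * ε / r + r) * r ≤ (e.1 * D1 f z' + e.2 * D2 f z') * r := by
      rw [neg_mul, e0]; nlinarith
    exact le_of_mul_le_mul_right this hr0
  · have : (e.1 * D1 f z' + e.2 * D2 f z') * r ≤ (2 * ε / r + r) * r := by
      rw [e0]; nlinarith
    exact le_of_mul_le_mul_right this hr0

/-- interpolation -/
lemma interp {α : ℝ} (hα0 : 0 < α) (hα1 : α < 1) {δ : ℝ} (hδ : 0 < δ) : ∃ ε, 0 < ε ∧
    ∀ f : ℝ × ℝ → ℝ, ContDiff ℝ 2 f → Bd ε f → N0 α 1 (D1 (D1 f)) → N0 α 1 (D1 (D2 f)) →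
      N0 α 1 (D2 (D2 f)) → Bd δ (D1 f) ∧ Bd δ (D2 f) ∧ Bd δ (D1 (D1 f)) ∧ Bd δ (D1 (D2 f)) ∧
        Bd δ (D2 (D2 f)) := by
  obtain ⟨r, hr0, hr1, hr⟩ : ∃ r : ℝ, 0 < r ∧ r ≤ 1 ∧ r ^ α ≤ δ / 24 := by
    refine ⟨min 1 ((δ / 24) ^ (1 / α)), lt_min one_pos (Real.rpow_pos_of_pos (by positivity) _),
      min_le_left _ _, ?_⟩
    calc (min 1 ((δ / 24) ^ (1 / α))) ^ α ≤ ((δ / 24) ^ (1 / α)) ^ α :=
          Real.rpow_le_rpow (le_min zero_le_one (Real.rpow_nonneg (by positivity) _))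
            (min_le_right _ _) hα0.le
      _ = δ / 24 := by
          rw [← Real.rpow_mul (by positivity), one_div_mul_cancel hα0.ne', Real.rpow_one]
  have hrr : r ≤ δ / 24 := by
    refine le_trans ?_ hr
    calc r = r ^ (1 : ℝ) := (Real.rpow_one r).symm
      _ ≤ r ^ α := Real.rpow_le_rpow_of_exponent_ge hr0 hr1 hα1.le
  refine ⟨δ * r ^ 2 / 24, by positivity, ?_⟩
  intro f hf hb h11 h12 h22
  set ε := δ * r ^ 2 / 24 with hε
  have hε0 : 0 < ε := by positivity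
  have hη : 4 * ε / r ^ 2 + 4 * r ^ α ≤ δ / 3 := by
    have : 4 * ε / r ^ 2 = δ / 6 := by rw [hε]; field_simp; ring
    rw [this]; linarith
  have hη' : 2 * ε / r + r ≤ δ / 8 := by
    have : 2 * ε / r = δ / 12 * r := by rw [hε]; field_simp; ring
    rw [this]
    nlinarith
  have q1 := (QF_small hα0 hf (e := (1, 0)) (by norm_num) hr0 hr1 hb h11.2 h12.2 h22.2).mono hη
  have q2 := (QF_small hα0 hf (e := (0, 1)) (by norm_num) hr0 hr1 hb h11.2 h12.2 h22.2).mono hη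
  have q3 := (QF_small hα0 hf (e := (3 / 5, 4 / 5)) (by norm_num) hr0 hr1 hb h11.2 h12.2
    h22.2).mono hη
  have b11 : Bd (δ / 3) (D1 (D1 f)) := q1.congr fun x _ => by unfold QF; ring
  have b22 : Bd (δ / 3) (D2 (D2 f)) := q2.congr fun x _ => by unfold QF; ring
  have b12 : Bd δ (D1 (D2 f)) := by
    intro x hx
    have e1 := abs_le.1 (b11 x hx)
    have e2 := abs_le.1 (b22 x hx)
    have e3 := abs_le.1 (q3 x hx)
    unfold QF at e3
    norm_num at e3
    rw [abs_le]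
    constructor <;> linarith
  have c1 : ContDiff ℝ 1 (D1 f) := cd_D1 (n := 1) (by simpa using hf)
  have c2 : ContDiff ℝ 1 (D2 f) := cd_D2 (n := 1) (by simpa using hf)
  have hcomm : D2 (D1 f) = D1 (D2 f) := D12_comm_fun hf
  have l1 : Lip (2 * 1) (D1 f) := lip_of_bd (c1.differentiable (by norm_num)) h11.1
    (by rw [hcomm]; exact h12.1)
  have l2 : Lip (2 * 1) (D2 f) := lip_of_bd (c2.differentiable (by norm_num)) h12.1 h22.1
  have hz' : ∀ z ∈ Disc, (1 - r) • z ∈ Disc := by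
    intro z hz
    have := shift_mem (t := 0) (e := 0) hz (by norm_num) hr1 (by rw [abs_zero]; exact hr0.le)
    simpa using this
  refine ⟨?_, ?_, b11.mono (by linarith), b12, b22.mono (by linarith)⟩
  · intro z hz
    have a1 := D_small hf (e := (1, 0)) (by norm_num) hr0 hr1 hb h11.1 h12.1 h22.1 hz
    have a2 := l1 z hz _ (hz' z hz)
    have a3 := dist_shift_le hz hr0.le
    simp only [one_mul, zero_mul, add_zero] at a1
    calc |D1 f z| = |(D1 f z - D1 f ((1 - r) • z)) + D1 f ((1 - r) • z)| := by congr 1; ring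
      _ ≤ 2 * 1 * dist z ((1 - r) • z) + (2 * ε / r + r) :=
          (abs_add_le _ _).trans (add_le_add a2 a1)
      _ ≤ δ := by linarith
  · intro z hz
    have a1 := D_small hf (e := (0, 1)) (by norm_num) hr0 hr1 hb h11.1 h12.1 h22.1 hz
    have a2 := l2 z hz _ (hz' z hz)
    have a3 := dist_shift_le hz hr0.le
    simp only [one_mul, zero_mul, zero_add] at a1
    calc |D2 f z| = |(D2 f z - D2 f ((1 - r) • z)) + D2 f ((1 - r) • z)| := by congr 1; ring
      _ ≤ 2 * 1 * dist z ((1 - r) • z) + (2 * ε / r + r) :=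
          (abs_add_le _ _).trans (add_le_add a2 a1)
      _ ≤ δ := by linarith

end AQ
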