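import Pool.Agent.Lib_helper97.AQ.SupBound
import Pool.Agent.Lib_helper97.AQ.Interp

/-! Module I2: the Schauder estimate in `C^{2,α}` by compactness, from the blow-up lemma. -/

namespace AQ

open AP Set Filter Topology

/-- the statement of the linear blow-up lemma `bl_lin` -/
def BlLin : Prop := ∀ (U : Ultrafilter ℕ) (α : ℝ) (u : ℕ → ℝ × ℝ → ℝ) (S ρ N : ℕ → ℝ)
    (X Y : ℕ → ℝ × ℝ), BU U α u S ρ N X Y → ∀ (a11 a12 a22 : ℝ), 0 < a11 →
    0 < a11 * a22 - a12 ^ 2 →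
    (∀ x : ℝ × ℝ, (∀ᶠ k in U, X k + ρ k • x ∈ Disc) →
      Tendsto (fun k => a11 * rs (D1 (D1 (u k))) (X k) (ρ k) (S k * ρ k ^ α) x
        + 2 * (a12 * rs (D1 (D2 (u k))) (X k) (ρ k) (S k * ρ k ^ α) x)
        + a22 * rs (D2 (D2 (u k))) (X k) (ρ k) (S k * ρ k ^ α) x) U (𝓝 0)) → False

/-- the optimal `C^{2,α}` norm -/
lemma exists_opt {α : ℝ} (hα0 : 0 < α) (hα1 : α < 1) {u : ℝ × ℝ → ℝ} (hu : ContDiff ℝ 3 u)
    {K : ℝ} (hK : ¬ N2 α K u) :
    ∃ M, K < M ∧ N2 α M u ∧ ∀ M' < M, ¬ N2 α M' u := by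
  obtain ⟨M0, -, hM0⟩ := exists_N2 hα0 hα1 hu
  have hbb : BddBelow {M | N2 α M u} := ⟨0, fun M hM => N2.nonneg hM⟩
  have hne : {M | N2 α M u}.Nonempty := ⟨M0, hM0⟩
  have hopt : N2 α (sInf {M | N2 α M u}) u := by
    apply N2.closed
    intro ε hε
    obtain ⟨M', hM', hlt⟩ := exists_lt_of_csInf_lt hne (lt_add_of_pos_right _ hε)
    exact N2.mono hM' hlt.le
  refine ⟨sInf {M | N2 α M u}, ?_, hopt, fun M' hM' h => ?_⟩
  · by_contra hcon
    push Not at hcon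
    exact hK (hopt.mono hcon)
  · exact absurd (csInf_le hbb h) (not_le.2 hM')

/-- one element of the sequence of counterexamples -/
structure CE (α lam Lam δ : ℝ) (a11 a12 a22 b1 b2 v : ℝ × ℝ → ℝ) (X Y : ℝ × ℝ) : Prop where
  cd : ContDiff ℝ 3 v
  bc : ∀ x : ℝ × ℝ, x.1 ^ 2 + x.2 ^ 2 = 1 → v x = 0
  n11 : N0 α Lam a11
  n12 : N0 α Lam a12
  n22 : N0 α Lam a22
  nb1 : N0 α Lam b1
  nb2 : N0 α Lam b2
  ell : Ell lam a11 a12 a22
  eq : N0 α δ (Lop a11 a12 a22 b1 b2 v)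
  h11 : Hol α 1 (D1 (D1 v))
  h12 : Hol α 1 (D1 (D2 v))
  h22 : Hol α 1 (D2 (D2 v))
  d1 : Bd δ (D1 v)
  d2 : Bd δ (D2 v)
  d11 : Bd δ (D1 (D1 v))
  d12 : Bd δ (D1 (D2 v))
  d22 : Bd δ (D2 (D2 v))
  hX : X ∈ Disc
  hY : Y ∈ Disc
  pos : 0 < dist X Y
  big : dist X Y ^ α ≤ 2 * (|D1 (D1 v) X - D1 (D1 v) Y| + |D1 (D2 v) X - D1 (D2 v) Y|
    + |D2 (D2 v) X - D2 (D2 v) Y|)

/-- from the failure of the estimate -/
lemma exists_CE {α lam Lam : ℝ} (hα0 : 0 < α) (hα1 : α < 1) (hl : 0 < lam)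
    (hno : ¬ ∃ C, 0 < C ∧
    ∀ (a11 a12 a22 b1 b2 u : ℝ × ℝ → ℝ) (F : ℝ), ContDiff ℝ 3 u →
      (∀ x : ℝ × ℝ, x.1 ^ 2 + x.2 ^ 2 = 1 → u x = 0) →
      N0 α Lam a11 → N0 α Lam a12 → N0 α Lam a22 → N0 α Lam b1 → N0 α Lam b2 →
      Ell lam a11 a12 a22 → N0 α F (Lop a11 a12 a22 b1 b2 u) → N2 α (C * F) u)
    {δ : ℝ} (hδ : 0 < δ) :
    ∃ (a11 a12 a22 b1 b2 v : ℝ × ℝ → ℝ) (X Y : ℝ × ℝ),
      CE α lam Lam δ a11 a12 a22 b1 b2 v X Y := by
  obtain ⟨C0, hC0, hsup⟩ := sup_bound (lam := lam) (Lam := Lam) hl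
  set δ' : ℝ := min δ (1 / 2) with hδ'
  have hδ'0 : 0 < δ' := lt_min hδ (by norm_num)
  obtain ⟨ε, hε, hint⟩ := interp hα0 hα1 hδ'0
  set K : ℝ := 1 / δ + C0 / ε + 2 * C0 with hKdef
  have hK0 : 0 < K := by positivity
  have hK1 : 1 / K ≤ δ := by
    rw [div_le_iff₀ hK0]
    have : δ * (1 / δ) = 1 := mul_one_div_cancel hδ.ne'
    have h2 : 0 ≤ δ * (C0 / ε + 2 * C0) := by positivity
    rw [hKdef]; nlinarith
  have hK2 : C0 * (1 / K) ≤ ε := by
    rw [mul_one_div, div_le_iff₀ hK0]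
    have : ε * (C0 / ε) = C0 := mul_div_cancel₀ _ hε.ne'
    have h2 : 0 ≤ ε * (1 / δ + 2 * C0) := by positivity
    rw [hKdef]; nlinarith
  have hK3 : C0 * (1 / K) ≤ 1 / 2 := by
    rw [mul_one_div, div_le_iff₀ hK0]
    have h2 : 0 ≤ 1 / δ + C0 / ε := by positivity
    rw [hKdef]; linarith
  push Not at hno
  obtain ⟨a11, a12, a22, b1, b2, u, F, hu, hbc, n11, n12, n22, nb1, nb2, hell, hF, hN⟩ :=
    hno K hK0
  have hF0 := hF.nonneg
  obtain ⟨M, hKM, hM, hM'⟩ := exists_opt hα0 hα1 hu hN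
  have hM0 : 0 < M := lt_of_le_of_lt (by positivity) hKM
  have hu2 : ContDiff ℝ 2 u := hu.of_le (by norm_num)
  set v : ℝ × ℝ → ℝ := fun x => (1 / M) * u x with hv
  have hvc : ContDiff ℝ 3 v := contDiff_const.mul hu
  have hvc2 : ContDiff ℝ 2 v := contDiff_const.mul hu2
  have habs : |1 / M| = 1 / M := abs_of_pos (by positivity)
  have hv1 : N2 α 1 v := by
    have := N2.smul (1 / M) hu2 hM
    rwa [habs, one_div_mul_cancel hM0.ne'] at this
  have hvn : ¬ N2 α (1 / 2) v := by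
    intro h
    have h2 := N2.smul M hvc2 h
    have e : (fun x => M * v x) = u := by
      ext x; rw [hv]; simp only; rw [← mul_assoc, mul_one_div_cancel hM0.ne', one_mul]
    rw [e, abs_of_pos hM0] at h2
    exact hM' _ (by linarith) h2
  have hvbc : ∀ x : ℝ × ℝ, x.1 ^ 2 + x.2 ^ 2 = 1 → v x = 0 := by
    intro x hx; rw [hv]; simp only; rw [hbc x hx, mul_zero]
  have hFM : 1 / M * F ≤ 1 / K := by
    rw [div_mul_eq_mul_div, one_mul, div_le_div_iff₀ hM0 hK0]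
    linarith
  have hLv : N0 α (1 / K) (Lop a11 a12 a22 b1 b2 v) := by
    have h1 := N0.smul (1 / M) hF
    rw [habs] at h1
    refine (h1.mono hFM).congr fun x _ => ?_
    rw [hv, Lop_smul _ hu2]
  have hvs : Bd (C0 * (1 / K)) v :=
    hsup a11 a12 a22 b1 b2 v (1 / K) hvc2 hvbc n11.1 n12.1 n22.1 nb1.1 nb2.1 hell hLv.1
  obtain ⟨⟨hv1a, hv1b⟩, hv2⟩ := hv1.2
  have h11 : N0 α 1 (D1 (D1 v)) := hv1b.1
  have h12 : N0 α 1 (D1 (D2 v)) := hv2.2.1
  have h22 : N0 α 1 (D2 (D2 v)) := hv2.2.2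
  have hcomm : D2 (D1 v) = D1 (D2 v) := D12_comm_fun hvc2
  obtain ⟨s1, s2, s11, s12, s22⟩ := hint v hvc2 (hvs.mono hK2) h11 h12 h22
  have hδδ : δ' ≤ δ := min_le_left _ _
  have hδh : δ' ≤ 1 / 2 := min_le_right _ _
  -- the pair of points
  have hpair : ∃ X ∈ Disc, ∃ Y ∈ Disc, dist X Y ^ α < 2 * (|D1 (D1 v) X - D1 (D1 v) Y|
      + |D1 (D2 v) X - D1 (D2 v) Y| + |D2 (D2 v) X - D2 (D2 v) Y|) := by
    by_contra hcon
    push Not at hcon
    apply hvn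
    have g11 : N0 α (1 / 2) (D1 (D1 v)) := ⟨s11.mono hδh, fun x hx y hy => by
      have := hcon x hx y hy
      have a1 := abs_nonneg (D1 (D2 v) x - D1 (D2 v) y)
      have a2 := abs_nonneg (D2 (D2 v) x - D2 (D2 v) y)
      linarith⟩
    have g12 : N0 α (1 / 2) (D1 (D2 v)) := ⟨s12.mono hδh, fun x hx y hy => by
      have := hcon x hx y hy
      have a1 := abs_nonneg (D1 (D1 v) x - D1 (D1 v) y)
      have a2 := abs_nonneg (D2 (D2 v) x - D2 (D2 v) y)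
      linarith⟩
    have g22 : N0 α (1 / 2) (D2 (D2 v)) := ⟨s22.mono hδh, fun x hx y hy => by
      have := hcon x hx y hy
      have a1 := abs_nonneg (D1 (D1 v) x - D1 (D1 v) y)
      have a2 := abs_nonneg (D1 (D2 v) x - D1 (D2 v) y)
      linarith⟩
    refine ⟨hvs.mono hK3, ⟨s1.mono hδh, g11, ?_⟩, ⟨s2.mono hδh, g12, g22⟩⟩
    rw [hcomm]; exact g12
  obtain ⟨X, hX, Y, hY, hlt⟩ := hpair
  refine ⟨a11, a12, a22, b1, b2, v, X, Y, hvc, hvbc, n11, n12, n22, nb1, nb2, hell,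
    hLv.mono hK1, h11.2, h12.2, h22.2, s1.mono hδδ, s2.mono hδδ, s11.mono hδδ, s12.mono hδδ,
    s22.mono hδδ, hX, hY, ?_, hlt.le⟩
  rcases eq_or_ne X Y with h | h
  · exfalso
    subst h
    simp only [sub_self, abs_zero, dist_self, add_zero, mul_zero] at hlt
    rw [Real.zero_rpow hα0.ne'] at hlt
    exact lt_irrefl _ hlt
  · exact dist_pos.2 h

/-- the estimate behind the limit equation -/
lemma CE.main {α lam Lam δ : ℝ} (hα0 : 0 < α) (hα1 : α < 1)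
    {a11 a12 a22 b1 b2 v : ℝ × ℝ → ℝ} {X Y : ℝ × ℝ}
    (h : CE α lam Lam δ a11 a12 a22 b1 b2 v X Y) {Z : ℝ × ℝ} (hZ : Z ∈ Disc) :
    |a11 X * (D1 (D1 v) Z - D1 (D1 v) X) + 2 * (a12 X * (D1 (D2 v) Z - D1 (D2 v) X))
      + a22 X * (D2 (D2 v) Z - D2 (D2 v) X)| ≤ (1 + 20 * Lam) * δ * dist Z X ^ α := by
  have hX := h.hX
  have hv2 : ContDiff ℝ 2 v := h.cd.of_le (by norm_num)
  have c1 : Differentiable ℝ (D1 v) :=
    (cd_D1 (n := 1) (by simpa using hv2)).differentiable (by norm_num)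
  have c2 : Differentiable ℝ (D2 v) :=
    (cd_D2 (n := 1) (by simpa using hv2)).differentiable (by norm_num)
  have hcomm : D2 (D1 v) = D1 (D2 v) := D12_comm_fun hv2
  have m1 : N0 α (4 * δ) (D1 v) := N0.of_bd hα0 hα1 c1 h.d1 h.d11 (by rw [hcomm]; exact h.d12)
  have m2 : N0 α (4 * δ) (D2 v) := N0.of_bd hα0 hα1 c2 h.d2 h.d12 h.d22
  have p1 := (h.nb1.mul m1).2 Z hZ X hX
  have p2 := (h.nb2.mul m2).2 Z hZ X hX
  have p0 := h.eq.2 Z hZ X hX
  have q11 : |(a11 Z - a11 X) * D1 (D1 v) Z| ≤ Lam * dist Z X ^ α * δ := by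
    rw [abs_mul]
    exact mul_le_mul (h.n11.2 Z hZ X hX) (h.d11 Z hZ) (abs_nonneg _)
      ((abs_nonneg _).trans (h.n11.2 Z hZ X hX))
  have q12 : |(a12 Z - a12 X) * D1 (D2 v) Z| ≤ Lam * dist Z X ^ α * δ := by
    rw [abs_mul]
    exact mul_le_mul (h.n12.2 Z hZ X hX) (h.d12 Z hZ) (abs_nonneg _)
      ((abs_nonneg _).trans (h.n12.2 Z hZ X hX))
  have q22 : |(a22 Z - a22 X) * D2 (D2 v) Z| ≤ Lam * dist Z X ^ α * δ := by
    rw [abs_mul]
    exact mul_le_mul (h.n22.2 Z hZ X hX) (h.d22 Z hZ) (abs_nonneg _)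
      ((abs_nonneg _).trans (h.n22.2 Z hZ X hX))
  have e : a11 X * (D1 (D1 v) Z - D1 (D1 v) X) + 2 * (a12 X * (D1 (D2 v) Z - D1 (D2 v) X))
      + a22 X * (D2 (D2 v) Z - D2 (D2 v) X)
      = (Lop a11 a12 a22 b1 b2 v Z - Lop a11 a12 a22 b1 b2 v X)
        - (a11 Z - a11 X) * D1 (D1 v) Z - 2 * ((a12 Z - a12 X) * D1 (D2 v) Z)
        - (a22 Z - a22 X) * D2 (D2 v) Z
        - (b1 Z * D1 v Z - b1 X * D1 v X) - (b2 Z * D2 v Z - b2 X * D2 v X) := by
    unfold Lop; ring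
  rw [e]
  have p0' := abs_le.1 p0
  have p1' := abs_le.1 p1
  have p2' := abs_le.1 p2
  have r11 := abs_le.1 q11
  have r12 := abs_le.1 q12
  have r22 := abs_le.1 q22
  rw [abs_le]
  constructor <;> nlinarith

/-- limit of a bounded sequence along an ultrafilter -/
lemma exists_ulim (U : Ultrafilter ℕ) {M : ℝ} {f : ℕ → ℝ} (hf : ∀ k, |f k| ≤ M) :
    ∃ a, Tendsto f U (𝓝 a) := by
  have hc : IsCompact (Icc (-M) M) := isCompact_Icc
  obtain ⟨a, -, ha⟩ := hc.ultrafilter_le_nhds (U.map f) (by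
    rw [le_principal_iff]
    show f ⁻¹' Icc (-M) M ∈ U
    exact Filter.mem_of_superset Filter.univ_mem fun k _ => abs_le.1 (hf k))
  exact ⟨a, ha⟩

lemma dist_add_smul (X x : ℝ × ℝ) {ρ : ℝ} (hρ : 0 ≤ ρ) : dist (X + ρ • x) X = ρ * ‖x‖ := by
  rw [dist_eq_norm, add_sub_cancel_left, norm_smul, Real.norm_eq_abs, abs_of_nonneg hρ]

/-- Module I2, from the blow-up lemma -/
theorem schauder2_of (hbl : BlLin) {α lam Lam : ℝ} (hα0 : 0 < α) (hα1 : α < 1) (hl : 0 < lam) :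
    ∃ C, 0 < C ∧
    ∀ (a11 a12 a22 b1 b2 u : ℝ × ℝ → ℝ) (F : ℝ), ContDiff ℝ 3 u →
      (∀ x : ℝ × ℝ, x.1 ^ 2 + x.2 ^ 2 = 1 → u x = 0) →
      N0 α Lam a11 → N0 α Lam a12 → N0 α Lam a22 → N0 α Lam b1 → N0 α Lam b2 →
      Ell lam a11 a12 a22 → N0 α F (Lop a11 a12 a22 b1 b2 u) → N2 α (C * F) u := by
  by_contra hno
  have hce : ∀ k : ℕ, ∃ (a11 a12 a22 b1 b2 v : ℝ × ℝ → ℝ) (X Y : ℝ × ℝ),
      CE α lam Lam (1 / ((k : ℝ) + 1)) a11 a12 a22 b1 b2 v X Y :=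
    fun k => exists_CE hα0 hα1 hl hno (by positivity)
  choose a11 a12 a22 b1 b2 v X Y hC using hce
  set U : Ultrafilter ℕ := hyperfilter ℕ with hU
  have hUt : (U : Filter ℕ) ≤ atTop := Nat.hyperfilter_le_atTop
  have hinv : Tendsto (fun k : ℕ => 1 / ((k : ℝ) + 1)) U (𝓝 0) :=
    tendsto_one_div_add_atTop_nhds_zero_nat.mono_left hUt
  have hpos : ∀ k, 0 < dist (X k) (Y k) := fun k => (hC k).pos
  have hρα : ∀ k, dist (X k) (Y k) ^ α ≤ 12 * (1 / ((k : ℝ) + 1)) := by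
    intro k
    have hk := hC k
    have t : ∀ f : ℝ × ℝ → ℝ, Bd (1 / ((k : ℝ) + 1)) f →
        |f (X k) - f (Y k)| ≤ 2 * (1 / ((k : ℝ) + 1)) := by
      intro f hf
      have e1 := abs_le.1 (hf _ hk.hX)
      have e2 := abs_le.1 (hf _ hk.hY)
      rw [abs_le]; constructor <;> linarith
    have := hk.big
    have t1 := t _ hk.d11
    have t2 := t _ hk.d12
    have t3 := t _ hk.d22
    linarith
  have hραlim : Tendsto (fun k => dist (X k) (Y k) ^ α) U (𝓝 0) := by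
    apply squeeze_zero (fun k => Real.rpow_nonneg dist_nonneg _) hρα
    simpa using hinv.const_mul 12
  have hρlim : Tendsto (fun k => dist (X k) (Y k)) U (𝓝 0) := by
    have h1 := hραlim.rpow_const (p := 1 / α) (Or.inr (by positivity))
    rw [Real.zero_rpow (by positivity)] at h1
    refine h1.congr fun k => ?_
    rw [← Real.rpow_mul dist_nonneg, mul_one_div_cancel hα0.ne', Real.rpow_one]
  have hBU : BU U α v (fun _ => 1) (fun k => dist (X k) (Y k)) (fun k => 1 / ((k : ℝ) + 1)) X Y :=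
    { α0 := hα0
      α1 := hα1
      cd := fun k => (hC k).cd.of_le (by norm_num)
      bc := fun k => (hC k).bc
      Spos := fun _ => one_pos
      hol11 := fun k => (hC k).h11
      hol12 := fun k => (hC k).h12
      hol22 := fun k => (hC k).h22
      X_mem := fun k => (hC k).hX
      Y_mem := fun k => (hC k).hY
      ρ_def := fun _ => rfl
      ρ_pos := hpos
      ρ_lim := hρlim
      big := fun k => by rw [one_mul]; exact (hC k).big
      N_bd := fun k => ⟨(hC k).d1, (hC k).d2, (hC k).d11, (hC k).d12, (hC k).d22⟩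
      N_lim := by
        have hlim : Tendsto (fun k : ℕ => 2 * (1 / ((k : ℝ) + 1))) U (𝓝 0) := by
          simpa using hinv.const_mul 2
        apply squeeze_zero _ _ hlim
        · intro k
          have := (hpos k).le
          positivity
        · intro k
          rw [one_mul]
          have h1 := dist_le_rpow hα0 hα1 (hC k).hX (hC k).hY
          have h2 : 0 < dist (X k) (Y k) ^ α := Real.rpow_pos_of_pos (hpos k) _
          rw [div_le_iff₀ h2]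
          have h3 : 0 ≤ 1 / ((k : ℝ) + 1) := by positivity
          nlinarith }
  obtain ⟨A11, hA11⟩ := exists_ulim U (fun k => (hC k).n11.1 _ (hC k).hX)
  obtain ⟨A12, hA12⟩ := exists_ulim U (fun k => (hC k).n12.1 _ (hC k).hX)
  obtain ⟨A22, hA22⟩ := exists_ulim U (fun k => (hC k).n22.1 _ (hC k).hX)
  have hell1 : lam ≤ A11 := ge_of_tendsto' hA11 fun k => ((hC k).ell _ (hC k).hX).1
  have hell2 : lam ≤ A11 * A22 - A12 ^ 2 :=
    ge_of_tendsto' ((hA11.mul hA22).sub (hA12.pow 2)) fun k => ((hC k).ell _ (hC k).hX).2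
  refine hbl U α v _ _ _ X Y hBU A11 A12 A22 (hl.trans_le hell1) (hl.trans_le hell2) ?_
  intro x hx
  set B : ℝ := ‖x‖ ^ α with hB
  have hB0 : 0 ≤ B := Real.rpow_nonneg (norm_nonneg _) _
  have hlimb : Tendsto (fun k : ℕ => |A11 - a11 k (X k)| * B + 2 * (|A12 - a12 k (X k)| * B)
      + |A22 - a22 k (X k)| * B + (1 + 20 * Lam) * (1 / ((k : ℝ) + 1)) * B) U (𝓝 0) := by
    have t1 : Tendsto (fun k => |A11 - a11 k (X k)|) U (𝓝 0) := by
      have := (tendsto_const_nhds (x := A11)).sub hA11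
      rw [sub_self] at this
      simpa using this.abs
    have t2 : Tendsto (fun k => |A12 - a12 k (X k)|) U (𝓝 0) := by
      have := (tendsto_const_nhds (x := A12)).sub hA12
      rw [sub_self] at this
      simpa using this.abs
    have t3 : Tendsto (fun k => |A22 - a22 k (X k)|) U (𝓝 0) := by
      have := (tendsto_const_nhds (x := A22)).sub hA22
      rw [sub_self] at this
      simpa using this.abs
    have := (((t1.mul_const B).add ((t2.mul_const B).const_mul 2)).add (t3.mul_const B)).add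
      ((hinv.const_mul (1 + 20 * Lam)).mul_const B)
    simpa using this
  apply squeeze_zero_norm' _ hlimb
  filter_upwards [hx] with k hk
  have hkC := hC k
  set Z : ℝ × ℝ := X k + dist (X k) (Y k) • x with hZ
  set R : ℝ := dist (X k) (Y k) ^ α with hR
  have hR0 : 0 < R := Real.rpow_pos_of_pos (hpos k) _
  have hdist : dist Z (X k) ^ α = R * B := by
    rw [hZ, dist_add_smul _ _ (hpos k).le, Real.mul_rpow (hpos k).le (norm_nonneg _)]
  have rsb : ∀ f : ℝ × ℝ → ℝ, Hol α 1 f →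
      |rs f (X k) (dist (X k) (Y k)) (1 * R) x| ≤ B := by
    intro f hf
    have := hf Z hk (X k) hkC.hX
    rw [hdist, one_mul] at this
    unfold rs
    rw [one_mul, abs_div, abs_of_pos hR0, div_le_iff₀ hR0, mul_comm B R]
    exact this
  have r11 := rsb _ hkC.h11
  have r12 := rsb _ hkC.h12
  have r22 := rsb _ hkC.h22
  have hmain := hkC.main hα0 hα1 hk
  rw [hdist] at hmain
  have hm : |a11 k (X k) * rs (D1 (D1 (v k))) (X k) (dist (X k) (Y k)) (1 * R) x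
      + 2 * (a12 k (X k) * rs (D1 (D2 (v k))) (X k) (dist (X k) (Y k)) (1 * R) x)
      + a22 k (X k) * rs (D2 (D2 (v k))) (X k) (dist (X k) (Y k)) (1 * R) x|
      ≤ (1 + 20 * Lam) * (1 / ((k : ℝ) + 1)) * B := by
    have e : a11 k (X k) * rs (D1 (D1 (v k))) (X k) (dist (X k) (Y k)) (1 * R) x
        + 2 * (a12 k (X k) * rs (D1 (D2 (v k))) (X k) (dist (X k) (Y k)) (1 * R) x)
        + a22 k (X k) * rs (D2 (D2 (v k))) (X k) (dist (X k) (Y k)) (1 * R) x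
        = (a11 k (X k) * (D1 (D1 (v k)) Z - D1 (D1 (v k)) (X k))
          + 2 * (a12 k (X k) * (D1 (D2 (v k)) Z - D1 (D2 (v k)) (X k)))
          + a22 k (X k) * (D2 (D2 (v k)) Z - D2 (D2 (v k)) (X k))) / R := by
      unfold rs
      rw [one_mul, ← hZ]
      field_simp
    rw [e, abs_div, abs_of_pos hR0, div_le_iff₀ hR0]
    calc _ ≤ _ := hmain
      _ = _ := by ring
  rw [Real.norm_eq_abs]
  set r1 := rs (D1 (D1 (v k))) (X k) (dist (X k) (Y k)) (1 * R) x with hr1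
  set r2 := rs (D1 (D2 (v k))) (X k) (dist (X k) (Y k)) (1 * R) x with hr2
  set r3 := rs (D2 (D2 (v k))) (X k) (dist (X k) (Y k)) (1 * R) x with hr3
  have e : A11 * r1 + 2 * (A12 * r2) + A22 * r3 = ((A11 - a11 k (X k)) * r1
      + 2 * ((A12 - a12 k (X k)) * r2) + (A22 - a22 k (X k)) * r3)
      + (a11 k (X k) * r1 + 2 * (a12 k (X k) * r2) + a22 k (X k) * r3) := by ring
  rw [e]
  refine (abs_add_le _ _).trans (add_le_add ((abs_add_three _ _ _).trans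
    (add_le_add (add_le_add ?_ ?_) ?_)) hm)
  · rw [abs_mul]; exact mul_le_mul_of_nonneg_left r11 (abs_nonneg _)
  · rw [abs_mul, abs_two, abs_mul]
    exact mul_le_mul_of_nonneg_left (mul_le_mul_of_nonneg_left r12 (abs_nonneg _)) (by norm_num)
  · rw [abs_mul]; exact mul_le_mul_of_nonneg_left r22 (abs_nonneg _)

end AQ
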