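import Pool.Agent.Lib_helper42.AQ.Norms

/-! Module I1: the weak maximum principle and the sup bound on the unit disc. -/

namespace AQ

open AP Set Filter Topology

/-- second derivative test in an arbitrary direction -/
lemma DDe_nonpos_of_isLocalMax {f : ℝ × ℝ → ℝ} {x : ℝ × ℝ} (h : ContDiff ℝ 2 f)
    (hm : IsLocalMax f x) (e : ℝ × ℝ) :
    e.1 ^ 2 * D1 (D1 f) x + 2 * (e.1 * e.2 * D1 (D2 f) x) + e.2 ^ 2 * D2 (D2 f) x ≤ 0 := by
  have c1 : ContDiff ℝ 1 (D1 f) := cd_D1 (n := 1) (by simpa using h)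
  have c2 : ContDiff ℝ 1 (D2 f) := cd_D2 (n := 1) (by simpa using h)
  have d0 : Differentiable ℝ f := h.differentiable (by norm_num)
  have d1 : Differentiable ℝ (D1 f) := c1.differentiable (by norm_num)
  have d2 : Differentiable ℝ (D2 f) := c2.differentiable (by norm_num)
  have hg : ∀ t : ℝ, HasDerivAt (fun s : ℝ => f (x + s • e))
      (e.1 * D1 f (x + t • e) + e.2 * D2 f (x + t • e)) t := fun t => hasDerivAt_line (d0 _)
  have hg' : deriv (fun s : ℝ => f (x + s • e)) =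
      fun t => e.1 * D1 f (x + t • e) + e.2 * D2 f (x + t • e) := funext fun t => (hg t).deriv
  have hg2 : HasDerivAt (fun t : ℝ => e.1 * D1 f (x + t • e) + e.2 * D2 f (x + t • e))
      (e.1 * (e.1 * D1 (D1 f) (x + (0 : ℝ) • e) + e.2 * D2 (D1 f) (x + (0 : ℝ) • e))
        + e.2 * (e.1 * D1 (D2 f) (x + (0 : ℝ) • e) + e.2 * D2 (D2 f) (x + (0 : ℝ) • e))) 0 :=
    ((hasDerivAt_line (d1 _)).const_mul _).add ((hasDerivAt_line (d2 _)).const_mul _)
  have hmax : IsLocalMax (fun s : ℝ => f (x + s • e)) 0 := by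
    have h2 : Tendsto (fun s : ℝ => x + s • e) (𝓝 0) (𝓝 x) := by
      have : ContinuousAt (fun s : ℝ => x + s • e) 0 := by fun_prop
      simpa [ContinuousAt] using this
    have := h2.eventually hm
    filter_upwards [this] with s hs
    simpa using hs
  have key := deriv2_nonpos_of_isLocalMax hmax (hg 0).continuousAt
  rw [hg', hg2.deriv] at key
  simp only [zero_smul, add_zero] at key
  rw [← D12_comm h.contDiffAt] at key
  linarith

/-- at a local maximum an elliptic operator without zeroth order term is nonpositive -/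
lemma Lop_nonpos_of_isLocalMax {a11 a12 a22 b1 b2 f : ℝ × ℝ → ℝ} {x : ℝ × ℝ}
    (h : ContDiff ℝ 2 f) (hm : IsLocalMax f x) (h1 : 0 < a11 x)
    (h2 : 0 < a11 x * a22 x - a12 x ^ 2) : Lop a11 a12 a22 b1 b2 f x ≤ 0 := by
  have e1 : D1 f x = 0 := by
    unfold D1; rw [hm.fderiv_eq_zero]; rfl
  have e2 : D2 f x = 0 := by
    unfold D2; rw [hm.fderiv_eq_zero]; rfl
  have k1 := DDe_nonpos_of_isLocalMax h hm (a11 x, a12 x)
  have k2 := DDe_nonpos_of_isLocalMax h hm (0, 1)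
  simp only at k1 k2
  unfold Lop
  rw [e1, e2]
  have h3 : a11 x * (a11 x * D1 (D1 f) x + 2 * (a12 x * D1 (D2 f) x) + a22 x * D2 (D2 f) x)
      ≤ 0 := by nlinarith
  have h4 : a11 x * D1 (D1 f) x + 2 * (a12 x * D1 (D2 f) x) + a22 x * D2 (D2 f) x ≤ 0 := by
    by_contra hcon
    push Not at hcon
    nlinarith
  linarith

lemma lt_mem_nhds_disc {x : ℝ × ℝ} (hx : x.1 ^ 2 + x.2 ^ 2 < 1) : Disc ∈ 𝓝 x := by
  have ho : IsOpen {y : ℝ × ℝ | y.1 ^ 2 + y.2 ^ 2 < 1} := isOpen_lt (by fun_prop) continuous_const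
  exact mem_of_superset (ho.mem_nhds hx) fun y hy => by
    simp only [mem_ofPred_eq] at hy
    exact le_of_lt hy

lemma Lop_add {a11 a12 a22 b1 b2 f g : ℝ × ℝ → ℝ} {x : ℝ × ℝ} (hf : ContDiff ℝ 2 f)
    (hg : ContDiff ℝ 2 g) : Lop a11 a12 a22 b1 b2 (fun y => f y + g y) x =
    Lop a11 a12 a22 b1 b2 f x + Lop a11 a12 a22 b1 b2 g x := by
  have f0 : Differentiable ℝ f := hf.differentiable (by norm_num)
  have g0 : Differentiable ℝ g := hg.differentiable (by norm_num)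
  have f1 : Differentiable ℝ (D1 f) :=
    (cd_D1 (n := 1) (by simpa using hf)).differentiable (by norm_num)
  have g1 : Differentiable ℝ (D1 g) :=
    (cd_D1 (n := 1) (by simpa using hg)).differentiable (by norm_num)
  have f2 : Differentiable ℝ (D2 f) :=
    (cd_D2 (n := 1) (by simpa using hf)).differentiable (by norm_num)
  have g2 : Differentiable ℝ (D2 g) :=
    (cd_D2 (n := 1) (by simpa using hg)).differentiable (by norm_num)
  unfold Lop
  rw [D1_addf f0 g0, D2_addf f0 g0, D1_addf f1 g1, D1_addf f2 g2, D2_addf f2 g2]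
  ring

lemma Lop_smul {a11 a12 a22 b1 b2 f : ℝ × ℝ → ℝ} {x : ℝ × ℝ} (c : ℝ) (hf : ContDiff ℝ 2 f) :
    Lop a11 a12 a22 b1 b2 (fun y => c * f y) x = c * Lop a11 a12 a22 b1 b2 f x := by
  have f0 : Differentiable ℝ f := hf.differentiable (by norm_num)
  have f1 : Differentiable ℝ (D1 f) :=
    (cd_D1 (n := 1) (by simpa using hf)).differentiable (by norm_num)
  have f2 : Differentiable ℝ (D2 f) :=
    (cd_D2 (n := 1) (by simpa using hf)).differentiable (by norm_num)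
  unfold Lop
  rw [D1_smulf c f0, D2_smulf c f0, D1_smulf c f1, D1_smulf c f2, D2_smulf c f2]
  ring

section expo

variable (γ : ℝ)

lemma hasFDerivAt_expo (c : ℝ) (x : ℝ × ℝ) : HasFDerivAt (fun y : ℝ × ℝ => c * Real.exp (γ * y.1))
    ((c * (Real.exp (γ * x.1) * γ)) • ContinuousLinearMap.fst ℝ ℝ ℝ) x := by
  have h1 : HasFDerivAt (fun y : ℝ × ℝ => y.1) (ContinuousLinearMap.fst ℝ ℝ ℝ) x :=
    hasFDerivAt_fst
  have h2 : HasDerivAt (fun t : ℝ => c * Real.exp (γ * t)) (c * (Real.exp (γ * x.1) * γ)) x.1 := by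
    have h3 : HasDerivAt (fun t : ℝ => γ * t) γ x.1 := by
      simpa using (hasDerivAt_id x.1).const_mul γ
    exact (h3.exp).const_mul c
  exact h2.comp_hasFDerivAt x h1

lemma D1_expo (c : ℝ) : D1 (fun y : ℝ × ℝ => c * Real.exp (γ * y.1)) =
    fun x => (c * γ) * Real.exp (γ * x.1) := by
  ext x
  unfold D1
  rw [(hasFDerivAt_expo γ c x).fderiv]
  simp
  ring

lemma D2_expo (c : ℝ) : D2 (fun y : ℝ × ℝ => c * Real.exp (γ * y.1)) =
    fun _ => 0 := by
  ext x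
  unfold D2
  rw [(hasFDerivAt_expo γ c x).fderiv]
  simp

lemma cd_expo (c : ℝ) : ContDiff ℝ 2 (fun y : ℝ × ℝ => c * Real.exp (γ * y.1)) := by
  fun_prop

lemma Lop_expo {a11 a12 a22 b1 b2 : ℝ × ℝ → ℝ} (c : ℝ) (x : ℝ × ℝ) :
    Lop a11 a12 a22 b1 b2 (fun y : ℝ × ℝ => c * Real.exp (γ * y.1)) x =
      c * ((a11 x * γ ^ 2 + b1 x * γ) * Real.exp (γ * x.1)) := by
  unfold Lop
  rw [D1_expo, D2_expo, D1_expo]
  have e : D1 (fun _ : ℝ × ℝ => (0 : ℝ)) x = 0 := D1_const 0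
  have e' : D2 (fun _ : ℝ × ℝ => (0 : ℝ)) x = 0 := D2_const 0
  rw [e, e']
  ring

end expo

/-- one sided sup bound -/
lemma sup_bound_aux {lam Lam γ : ℝ} (hl : 0 < lam) (hγ : 0 < γ) (hγ2 : Lam + lam ≤ lam * γ)
    {a11 a12 a22 b1 b2 u : ℝ × ℝ → ℝ} {F : ℝ} (hu : ContDiff ℝ 2 u)
    (hbc : ∀ x : ℝ × ℝ, x.1 ^ 2 + x.2 ^ 2 = 1 → u x = 0)
    (hb1 : Bd Lam b1) (hell : Ell lam a11 a12 a22)
    (hF : ∀ x ∈ Disc, -F ≤ Lop a11 a12 a22 b1 b2 u x) (hF0 : 0 ≤ F) :
    ∀ x ∈ Disc, u x ≤ (Real.exp γ * Real.exp γ / (lam * γ)) * F := by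
  intro x₀ hx₀
  -- the lower bound of `L v`
  have hlow : ∀ x ∈ Disc, lam * γ * Real.exp (-γ) ≤
      (a11 x * γ ^ 2 + b1 x * γ) * Real.exp (γ * x.1) := by
    intro x hx
    have h1 := (abs_le.1 (disc_abs1 hx)).1
    have h2 := (abs_le.1 (hb1 x hx)).1
    have h3 := (hell x hx).1
    have h4 : lam * γ ≤ a11 x * γ ^ 2 + b1 x * γ := by
      have h5 : lam * γ ^ 2 ≤ a11 x * γ ^ 2 := mul_le_mul_of_nonneg_right h3 (by positivity)
      have h6 : -Lam * γ ≤ b1 x * γ := mul_le_mul_of_nonneg_right h2 hγ.le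
      nlinarith
    have h5 : Real.exp (-γ) ≤ Real.exp (γ * x.1) := Real.exp_le_exp.2 (by nlinarith)
    exact mul_le_mul h4 h5 (Real.exp_pos _).le ((by positivity : 0 ≤ lam * γ).trans h4)
  have key : ∀ ε > 0, u x₀ ≤ (Real.exp γ * Real.exp γ / (lam * γ)) * (F + ε) := by
    intro ε hε
    set K : ℝ := Real.exp γ / (lam * γ) * (F + ε) with hK
    have hK0 : 0 ≤ K := by positivity
    have hKc : K * (lam * γ * Real.exp (-γ)) = F + ε := by
      rw [hK, Real.exp_neg]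
      have := Real.exp_pos γ
      field_simp
    set w : ℝ × ℝ → ℝ := fun y => u y + K * Real.exp (γ * y.1) with hw
    have hwc : ContDiff ℝ 2 w := hu.add (cd_expo γ K)
    obtain ⟨y, hy, hmax⟩ := disc_compact.exists_isMaxOn ⟨x₀, hx₀⟩ hwc.continuous.continuousOn
    have hyb : y.1 ^ 2 + y.2 ^ 2 = 1 := by
      by_contra hne
      have hlt : y.1 ^ 2 + y.2 ^ 2 < 1 := lt_of_le_of_ne hy hne
      have hloc : IsLocalMax w y := by
        filter_upwards [lt_mem_nhds_disc hlt] with z hz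
        exact hmax hz
      have h1 := (hell y hy).1
      have h2 := (hell y hy).2
      have hle := Lop_nonpos_of_isLocalMax (a11 := a11) (a12 := a12) (a22 := a22) (b1 := b1)
        (b2 := b2) hwc hloc (by linarith) (by linarith)
      rw [hw, Lop_add hu (cd_expo γ K), Lop_expo] at hle
      have h3 := hF y hy
      have h4 := mul_le_mul_of_nonneg_left (hlow y hy) hK0
      rw [hKc] at h4
      linarith
    have h1 : w x₀ ≤ w y := hmax hx₀
    have h2 : w y ≤ K * Real.exp γ := by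
      rw [hw]
      simp only
      rw [hbc y hyb, zero_add]
      apply mul_le_mul_of_nonneg_left _ hK0
      apply Real.exp_le_exp.2
      have := (abs_le.1 (disc_abs1 hy)).2
      nlinarith
    have h3 : u x₀ ≤ w x₀ := by
      rw [hw]
      simp only
      have := mul_nonneg hK0 (Real.exp_pos (γ * x₀.1)).le
      linarith
    calc u x₀ ≤ K * Real.exp γ := h3.trans (h1.trans h2)
      _ = _ := by rw [hK]; ring
  have hC : 0 < Real.exp γ * Real.exp γ / (lam * γ) := by positivity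
  refine le_of_forall_pos_le_add fun ε hε => ?_
  have := key (ε / (Real.exp γ * Real.exp γ / (lam * γ))) (by positivity)
  rw [mul_add, mul_div_cancel₀ _ hC.ne'] at this
  exact this

theorem sup_bound {lam Lam : ℝ} (hl : 0 < lam) : ∃ C, 0 < C ∧
    ∀ (a11 a12 a22 b1 b2 u : ℝ × ℝ → ℝ) (F : ℝ), ContDiff ℝ 2 u →
      (∀ x : ℝ × ℝ, x.1 ^ 2 + x.2 ^ 2 = 1 → u x = 0) →
      Bd Lam a11 → Bd Lam a12 → Bd Lam a22 → Bd Lam b1 → Bd Lam b2 → Ell lam a11 a12 a22 →
      Bd F (Lop a11 a12 a22 b1 b2 u) → Bd (C * F) u := by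
  obtain ⟨γ, hγ⟩ : ∃ γ : ℝ, γ = (|Lam| + lam) / lam := ⟨_, rfl⟩
  have hγ0 : 0 < γ := by rw [hγ]; positivity
  have hγ2 : Lam + lam ≤ lam * γ := by
    rw [hγ, mul_div_cancel₀ _ hl.ne']
    linarith [le_abs_self Lam]
  refine ⟨Real.exp γ * Real.exp γ / (lam * γ), by positivity, ?_⟩
  intro a11 a12 a22 b1 b2 u F hu hbc _ _ _ hb1 _ hell hF x hx
  have hF0 := hF.nonneg
  rw [abs_le]
  constructor
  · have h := sup_bound_aux hl hγ0 hγ2 (b2 := b2) (u := fun y => -1 * u y) (F := F)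
      (contDiff_const.mul hu)
      (fun x hx => by rw [hbc x hx, mul_zero]) hb1 hell
      (fun x hx => by
        rw [Lop_smul (-1) hu]
        have := (abs_le.1 (hF x hx)).2
        linarith) hF0 x hx
    linarith
  · exact sup_bound_aux hl hγ0 hγ2 (b2 := b2) hu hbc hb1 hell
      (fun x hx => (abs_le.1 (hF x hx)).1) hF0 x hx

end AQ
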